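import Mathlib
import Pool.Agent.H7.REV.Sing

/-!
# Revision cardinals below strong limit cardinals: a question about limit cardinals

Let `χ` be an uncountable strong limit cardinal and `λ ≥ χ`, and let `E(χ, λ)` be the set of the
regular `κ < χ` such that `κ⁺` is not a `λ`-revision cardinal. The question is whether `E(χ, λ)` is
always finite; Shelah proved that it is bounded below `χ`, and that `χ` is a `λ`-revision cardinal.

* Let `τ ≤ χ` be an uncountable limit cardinal. Then `E(χ, λ)` is bounded below `τ` if and only if `τ`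
  is a `λ`-revision cardinal.
* So `E(χ, λ)` is finite if and only if all uncountable limit cardinals `τ ≤ χ` are `λ`-revision
  cardinals; the cardinals `τ` of countable cofinality suffice. The question is therefore whether the
  theorem of Shelah on strong limit cardinals holds for all uncountable limit cardinals `τ` and all `λ`
  that are not smaller than the first strong limit cardinal above `τ`.
* It is enough to consider `τ` and `λ` of countable cofinality.

The main step (`Cov.uniform`): if `κ`-sets are covered by less than `κ` members of one family for each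
regular `κ ≥ σ`, `κ < τ`, then they are covered by less than `σ` members of another one, by induction on
`κ`: the members needed for a `κ`-set form a set of smaller size, to which the induction hypothesis
applies.
-/

set_option autoImplicit false

open Cardinal Ordinal Set Order

universe u

namespace Pool.Agent.Results.MP_63fc39_lc.LimitCardinalsBelow

open Pool.Agent.H7.REV

/-- The statement of Question 1. -/
def Question : Prop := ∀ χ lam : Cardinal.{u}, ℵ₀ < χ → χ.IsStrongLimit → χ ≤ lam →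
  (ExcBelow χ lam).Finite

theorem excBelow_eq {χ lam : Cardinal.{u}} (h : χ ≤ lam) : ExcBelow χ lam = Exc lam ∩ Iio χ := by
  ext κ
  constructor
  · rintro ⟨h1, h2, h3⟩
    exact ⟨⟨h1, h2.trans_le h, h3⟩, h2⟩
  · rintro ⟨⟨h1, -, h3⟩, h2⟩
    exact ⟨h1, h2, h3⟩

theorem boundedIn_excBelow {χ lam τ : Cardinal.{u}} (h : χ ≤ lam) (hτ : τ ≤ χ) :
    BoundedIn (ExcBelow χ lam) τ ↔ BoundedIn (Exc lam) τ := by
  rw [excBelow_eq h]
  constructor
  · rintro ⟨σ, h1, h2⟩
    exact ⟨σ, h1, fun κ hκ hκτ => h2 κ ⟨hκ, hκτ.trans_le hτ⟩ hκτ⟩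
  · rintro ⟨σ, h1, h2⟩
    exact ⟨σ, h1, fun κ hκ hκτ => h2 κ hκ.1 hκτ⟩

theorem revision_of_bounded {τ lam : Cardinal.{u}} (h0 : ℵ₀ < τ) (hτ : IsSuccLimit τ)
    (hl : τ ≤ lam) (h : BoundedIn (Exc lam) τ) : IsRevision lam τ := by
  obtain ⟨σ, h1, h2, -, h3⟩ := uniform_of_bounded hτ h0 hl h
  exact ⟨σ, h1, two_le h2, h3⟩

theorem uniform_of_bounded' {τ lam : Cardinal.{u}} (h0 : ℵ₀ < τ) (hτ : IsSuccLimit τ)
    (hl : τ ≤ lam) (h : BoundedIn (Exc lam) τ) : UniformlyCovered lam τ := by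
  obtain ⟨σ, h1, h2, h3, -⟩ := uniform_of_bounded hτ h0 hl h
  exact ⟨σ, h1, two_le h2, h3⟩

theorem local_iff {χ lam τ : Cardinal.{u}} (hs : χ.IsStrongLimit) (hl : χ ≤ lam)
    (h0 : ℵ₀ < τ) (hτ : IsSuccLimit τ) (hτχ : τ ≤ χ) :
    (BoundedIn (ExcBelow χ lam) τ ↔ IsRevision lam τ) ∧
      (BoundedIn (ExcBelow χ lam) τ ↔ UniformlyCovered lam τ) := by
  rw [boundedIn_excBelow hl hτχ]
  have hτl := hτχ.trans hl
  refine ⟨⟨revision_of_bounded h0 hτ hτl, bounded_of_revision h0 hτl fun θ hθ =>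
    (hs.isStrongPrelimit (hθ.trans_le hτχ)).le.trans hl⟩,
    ⟨uniform_of_bounded' h0 hτ hτl, bounded_of_uniform⟩⟩

theorem finite_iff {χ lam : Cardinal.{u}} (hs : χ.IsStrongLimit) (hl : χ ≤ lam) :
    (ExcBelow χ lam).Finite ↔
      ∀ τ : Cardinal.{u}, ℵ₀ < τ → τ ≤ χ → τ.ord.cof = ℵ₀ → IsRevision lam τ := by
  rw [excBelow_eq hl, finite_iff_bounded fun κ hκ => hκ.1.aleph0_le]
  constructor
  · intro h τ h1 h2 h3
    exact (local_iff hs hl h1 (singular_of_cof h1 h3).isSuccLimit h2).1.1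
      ((boundedIn_excBelow hl h2).2 (h τ h1 h2 h3))
  · intro h τ h1 h2 h3
    exact (boundedIn_excBelow hl h2).1
      ((local_iff hs hl h1 (singular_of_cof h1 h3).isSuccLimit h2).1.2 (h τ h1 h2 h3))

theorem finite_iff_limit {χ lam : Cardinal.{u}} (hs : χ.IsStrongLimit) (hl : χ ≤ lam) :
    (ExcBelow χ lam).Finite ↔
      ∀ τ : Cardinal.{u}, ℵ₀ < τ → τ ≤ χ → IsSuccLimit τ → IsRevision lam τ := by
  constructor
  · intro hf τ h0 hτχ hτ
    refine (local_iff hs hl h0 hτ hτχ).1.1 ?_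
    rcases (ExcBelow χ lam ∩ Iio τ).eq_empty_or_nonempty with he | hne
    · refine ⟨0, aleph0_pos.trans h0, fun κ hκ hκτ => ?_⟩
      have : κ ∈ ExcBelow χ lam ∩ Iio τ := ⟨hκ, hκτ⟩
      rw [he] at this
      exact absurd this (notMem_empty κ)
    · obtain ⟨m, hm, hmax⟩ := Set.exists_max_image (ExcBelow χ lam ∩ Iio τ) id
        (hf.subset inter_subset_left) hne
      exact ⟨succ m, hτ.succ_lt hm.2, fun κ hκ hκτ => lt_succ_iff.2 (hmax κ ⟨hκ, hκτ⟩)⟩
  · intro h
    exact (finite_iff hs hl).2 fun τ h1 h2 h3 => h τ h1 h2 (singular_of_cof h1 h3).isSuccLimit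

theorem le_of_lt_covCof {χ lam μ : Cardinal.{u}} (hs : χ.IsStrongLimit) (hl : χ ≤ lam)
    (hμ : μ.IsSingular) (h : lam < covCof μ) : χ ≤ μ := by
  by_contra hn
  rw [not_le] at hn
  exact absurd (h.trans_le (covCof_le hμ)) (not_lt.2 ((hs.isStrongPrelimit hn).le.trans hl))

theorem exists_countable {χ lam : Cardinal.{u}} (h0 : ℵ₀ < χ) (hs : χ.IsStrongLimit)
    (hl : χ ≤ lam) (hinf : (ExcBelow χ lam).Infinite) :
    ∃ lam' ≤ lam, χ < lam' ∧ lam'.ord.cof = ℵ₀ ∧ (ExcBelow χ lam ∩ ExcBelow χ lam').Infinite ∧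
      ∃ μ : ℕ → Cardinal.{u}, StrictMono μ ∧ StrictMono (fun n => (μ n).ord.cof) ∧
        lam' = ⨆ n, μ n ∧ ∀ n, (μ n).IsSingular ∧ (μ n).ord.cof < χ ∧ χ ≤ μ n ∧
          lam < covCof (μ n) := by
  have hD : ExcBelow χ lam ⊆ Exc lam := by rw [excBelow_eq hl]; exact inter_subset_left
  obtain ⟨lam', h1, -, h3, h4, μ, m1, m2, m3, m4⟩ :=
    exists_countable_cof (h0.le.trans hl) hD hinf
  have hb : BddAbove (range μ) := Cardinal.bddAbove_of_small
  have hlt : ∀ n, μ n < ⨆ m, μ m := fun n =>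
    (m1 (Nat.lt_succ_self n)).trans_le (le_ciSup hb (n + 1))
  have hχ : ∀ n, χ ≤ μ n := fun n => le_of_lt_covCof hs hl (m4 n).1 (m4 n).2.2
  have hlam : χ < lam' := by rw [m3]; exact (hχ 0).trans_lt (hlt 0)
  refine ⟨lam', h1, hlam, h3, ?_, μ, m1, m2, m3,
    fun n => ⟨(m4 n).1, (m4 n).2.1.2.1, hχ n, (m4 n).2.2⟩⟩
  refine h4.mono ?_
  rintro κ ⟨k1, k2⟩
  exact ⟨k1, k2.1, k1.2.1, k2.2.2⟩

/-- **Revision cardinals below strong limit cardinals.** `ExcBelow χ lam` is the set of the regular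
`κ < χ` such that `κ⁺` is not a `lam`-revision cardinal; the question is whether it is finite if `χ` is
an uncountable strong limit cardinal and `χ ≤ lam`. -/
theorem result :
    (∀ χ lam : Cardinal.{u}, ℵ₀ < χ → χ.IsStrongLimit → χ ≤ lam →
      (∀ τ : Cardinal.{u}, ℵ₀ < τ → τ ≤ χ → IsSuccLimit τ →
        (BoundedIn (ExcBelow χ lam) τ ↔ IsRevision lam τ) ∧
        (IsRevision lam τ ↔ UniformlyCovered lam τ)) ∧
      ((ExcBelow χ lam).Finite ↔
        ∀ τ : Cardinal.{u}, ℵ₀ < τ → τ ≤ χ → IsSuccLimit τ → IsRevision lam τ) ∧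
      ((ExcBelow χ lam).Finite ↔
        ∀ τ : Cardinal.{u}, ℵ₀ < τ → τ ≤ χ → τ.ord.cof = ℵ₀ → IsRevision lam τ)) ∧
    (Question.{u} ↔ ∀ χ lam τ : Cardinal.{u}, χ.IsStrongLimit → χ ≤ lam → ℵ₀ < τ → τ ≤ χ →
      IsSuccLimit τ → IsRevision lam τ) ∧
    (Question.{u} ↔ ∀ χ lam τ : Cardinal.{u}, χ.IsStrongLimit → χ < lam → ℵ₀ < τ → τ ≤ χ →
      τ.ord.cof = ℵ₀ → lam.ord.cof = ℵ₀ → IsRevision lam τ) := by
  refine ⟨?_, ?_, ?_⟩
  · intro χ lam h0 hs hl
    refine ⟨?_, finite_iff_limit hs hl, finite_iff hs hl⟩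
    intro τ h1 h2 h3
    have h := local_iff hs hl h1 h3 h2
    exact ⟨h.1, h.1.symm.trans h.2⟩
  · constructor
    · intro h χ lam τ hs hl h0 hτχ hτ
      exact (finite_iff_limit hs hl).1 (h χ lam (h0.trans_le hτχ) hs hl) τ h0 hτχ hτ
    · intro h χ lam h0 hs hl
      exact (finite_iff_limit hs hl).2 fun τ h1 h2 h3 => h χ lam τ hs hl h1 h2 h3
  · constructor
    · intro h χ lam τ hs hl h0 hτχ hτ _
      exact (finite_iff hs hl.le).1 (h χ lam (h0.trans_le hτχ) hs hl.le) τ h0 hτχ hτ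
    · intro h χ lam h0 hs hl
      by_contra hinf
      obtain ⟨lam', -, h2, h3, h4, -⟩ := exists_countable h0 hs hl hinf
      refine h4 (Set.Finite.subset ?_ inter_subset_right)
      exact (finite_iff hs h2.le).2 fun τ t1 t2 t3 => h χ lam' τ hs h2 t1 t2 t3 h3

end Pool.Agent.Results.MP_63fc39_lc.LimitCardinalsBelow
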