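import Mathlib
import Pool.Agent.H7.REV.Sing

/-!
# Revision cardinals below strong limit cardinals: the gap between a cardinal and its power

Let `χ` be an uncountable strong limit cardinal and `λ ≥ χ`, and let `E(χ, λ)` be the set of the
regular `κ < χ` such that `κ⁺` is not a `λ`-revision cardinal. Let `θ = ℵ_o` be the least cardinal with
`2 ^ θ > λ`; then `θ ≥ χ`. Each `κ ∈ E(χ, λ)` is the cofinality of `θ` or satisfies `ℵ_(o + κ) ≤ λ`. So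
if `E(χ, λ)` is infinite then `ℵ_(o + ω_ω) ≤ λ < 2 ^ θ`. In particular `E(χ, λ)` is finite if
`λ < ℵ_(o + ω_ω)`, `χ = ℵ_o`, and the answer to the question is yes if `2 ^ θ ≤ ℵ_(o + ω_ω)` for all
`θ = ℵ_o`.

Proof: let `κ ∈ E(χ, λ)` and let `μ` be the least cardinal with `cov(μ, κ⁺, κ⁺, κ) > λ`. It has
cofinality `κ`, and it is not less than `θ`, since the covering number is at most `2 ^ μ`.
-/

set_option autoImplicit false

open Cardinal Ordinal Set Order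

universe u

namespace Pool.Agent.Results.MP_63fc39_lc.PowerGapBelow

open Pool.Agent.H7.REV

/-- The statement of Question 1. -/
def Question : Prop := ∀ χ lam : Cardinal.{u}, ℵ₀ < χ → χ.IsStrongLimit → χ ≤ lam →
  (ExcBelow χ lam).Finite

theorem excBelow_eq {χ lam : Cardinal.{u}} (h : χ ≤ lam) : ExcBelow χ lam = Exc lam ∩ Iio χ := by
  ext κ
  constructor
  · rintro ⟨h1, h2, h3⟩
    exact ⟨⟨h1, h2.trans_le h, h3⟩, h2⟩
  · rintro ⟨⟨h1, -, h3⟩, h2⟩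
    exact ⟨h1, h2, h3⟩

theorem position {χ lam : Cardinal.{u}} (h0 : ℵ₀ < χ) (hs : χ.IsStrongLimit) (hl : χ ≤ lam) :
    ∃ o : Ordinal.{u}, χ ≤ ℵ_ o ∧ ℵ_ o ≤ lam ∧ lam < 2 ^ (ℵ_ o) ∧ (∀ θ < ℵ_ o, 2 ^ θ ≤ lam) ∧
      (∀ κ ∈ ExcBelow χ lam, κ = (ℵ_ o).ord.cof ∨ ℵ_ (o + κ.ord) ≤ lam) ∧
      ((ExcBelow χ lam).Infinite → ℵ_ (o + ω_ ω) ≤ lam) := by
  obtain ⟨o, h1, h2, h3⟩ := exists_theta (h0.le.trans hl)
  have hD : ExcBelow χ lam ⊆ Exc lam := by rw [excBelow_eq hl]; exact inter_subset_left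
  refine ⟨o, ?_, h1, h2, h3, fun κ hκ => exc_or h1 h3 (hD hκ),
    fun hinf => le_of_infinite h1 h3 (hinf.mono hD)⟩
  by_contra hn
  rw [not_le] at hn
  exact absurd (h2.trans (hs.isStrongPrelimit hn)) (not_lt.2 hl)

theorem finite_of_lt {o : Ordinal.{u}} {lam : Cardinal.{u}} (h0 : ℵ₀ < ℵ_ o)
    (hs : (ℵ_ o).IsStrongLimit) (hl : ℵ_ o ≤ lam) (hlt : lam < ℵ_ (o + ω_ ω)) :
    (ExcBelow (ℵ_ o) lam).Finite := by
  by_contra hinf
  obtain ⟨o', h1, -, -, -, -, h6⟩ := position h0 hs hl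
  refine absurd (h6 hinf) (not_le.2 (hlt.trans_le ?_))
  rw [aleph_le_aleph]
  exact add_le_add_left (aleph_le_aleph.1 h1) _

theorem question_of_power (h : ∀ o : Ordinal.{u}, 2 ^ (ℵ_ o) ≤ ℵ_ (o + ω_ ω)) :
    Question.{u} := by
  intro χ lam h0 hs hl
  by_contra hinf
  obtain ⟨o, -, -, h3, -, -, h6⟩ := position h0 hs hl
  exact absurd (h3.trans_le (h o)) (not_lt.2 (h6 hinf))

/-- **Exceptional cardinals and powers.** `ExcBelow χ lam` is the set of the regular `κ < χ` such that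
`κ⁺` is not a `lam`-revision cardinal; the question is whether it is finite if `χ` is an uncountable
strong limit cardinal and `χ ≤ lam`. -/
theorem result :
    (∀ χ lam : Cardinal.{u}, ℵ₀ < χ → χ.IsStrongLimit → χ ≤ lam →
      ∃ o : Ordinal.{u}, χ ≤ ℵ_ o ∧ ℵ_ o ≤ lam ∧ lam < 2 ^ (ℵ_ o) ∧ (∀ θ < ℵ_ o, 2 ^ θ ≤ lam) ∧
        (∀ κ ∈ ExcBelow χ lam, κ = (ℵ_ o).ord.cof ∨ ℵ_ (o + κ.ord) ≤ lam) ∧
        ((ExcBelow χ lam).Infinite → ℵ_ (o + ω_ ω) ≤ lam)) ∧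
    (∀ (o : Ordinal.{u}) (lam : Cardinal.{u}), ℵ₀ < ℵ_ o → (ℵ_ o).IsStrongLimit → ℵ_ o ≤ lam →
      lam < ℵ_ (o + ω_ ω) → (ExcBelow (ℵ_ o) lam).Finite) ∧
    ((∀ o : Ordinal.{u}, 2 ^ (ℵ_ o) ≤ ℵ_ (o + ω_ ω)) → Question.{u}) :=
  ⟨fun _ _ h0 hs hl => position h0 hs hl, fun _ _ h0 hs hl hlt => finite_of_lt h0 hs hl hlt,
    question_of_power⟩

end Pool.Agent.Results.MP_63fc39_lc.PowerGapBelow
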